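import Mathlib
import Pool.Agent.Results.MP_54cd88_an.NotGrothendieck

/-! `prop_(T) = 𝔠` in ZFC. -/

namespace Pool.Agent.Results.MP_898cae_lc.EqualsContinuum

open Set Filter MeasureTheory Cardinal

/-- The standard product measure `λ` on the Cantor space. -/
noncomputable def lam : Measure (ℕ → Bool) :=
  Measure.infinitePi (fun _ : ℕ => ProbabilityTheory.uniformOn (Set.univ : Set Bool))

/-- `V_m^i`. -/
def V (m : ℕ) (i : Bool) : Set (ℕ → Bool) := {x | x m = i}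

/-- The atoms of `𝒜_n`: the points agreeing with `s` on the coordinates `0, …, n`. -/
def atom (n : ℕ) (s : ℕ → Bool) : Set (ℕ → Bool) := {x | ∀ i ≤ n, x i = s i}

/-- `φ_m(A) = |λ(A ∩ V_m^0) - λ(A ∩ V_m^1)|`. -/
noncomputable def phi (m : ℕ) (A : Set (ℕ → Bool)) : ℝ :=
  |lam.real (A ∩ V m false) - lam.real (A ∩ V m true)|

/-- `𝓑` is an algebra of Borel sets containing the clopen sets and having property (T). -/
def PropT (𝓑 : Set (Set (ℕ → Bool))) : Prop :=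
  IsSetAlgebra 𝓑 ∧ (∀ A ∈ 𝓑, @MeasurableSet _ (borel (ℕ → Bool)) A) ∧
    (∀ A, IsClopen A → A ∈ 𝓑) ∧
    ∀ F : Finset (Set (ℕ → Bool)), (∀ A ∈ F, A ∈ 𝓑) → ∀ ε : ℝ, 0 < ε → ∃ n : ℕ, 1 ≤ n ∧
      ∀ A ∈ F, ∀ s : ℕ → Bool,
        (lam.real (A ∩ atom n s) ≤ ε * lam.real (atom n s) / n ∨
          lam.real (atom n s \ A) ≤ ε * lam.real (atom n s) / n) ∧
        ∀ m : ℕ, n < m → phi m (A ∩ atom n s) ≤ ε * lam.real (atom n s) / m

/-- Maximal among the subalgebras of `Bor(2^ℕ)` with property (T). -/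
def MaximalT (𝓑 : Set (Set (ℕ → Bool))) : Prop :=
  PropT 𝓑 ∧ ∀ 𝓒, PropT 𝓒 → 𝓑 ⊆ 𝓒 → 𝓒 = 𝓑

/-- The cardinal `prop_(T)`. -/
noncomputable def propT : Cardinal.{0} := sInf {c | ∃ 𝓑, MaximalT 𝓑 ∧ #𝓑 = c}

lemma iff_old (𝓑 : Set (Set (ℕ → Bool))) :
    PropT 𝓑 ↔ Pool.Agent.Results.MP_54cd88_an.NotGrothendieck.PropT 𝓑 := by
  refine and_congr_right' (and_congr_right' (and_congr_right' (forall₄_congr fun F _ ε _ =>
    exists_congr fun n => and_congr_right' (forall₃_congr fun A _ s =>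
      and_congr min_le_iff.symm (forall₂_congr fun m hm => ?_)))))
  rw [le_div_iff₀ (by exact_mod_cast (show 0 < m by omega)), mul_comm]
  rfl

lemma card_eq {𝓑 : Set (Set (ℕ → Bool))} (h : MaximalT 𝓑) : #𝓑 = 𝔠 := by
  classical
  obtain ⟨⟨h1, h2, h3, h4⟩, hmax⟩ := h
  have hb : ∀ A : Set (ℕ → Bool), @MeasurableSet _ (borel (ℕ → Bool)) A ↔ MeasurableSet A :=
    fun A => by rw [← BorelSpace.measurable_eq]
  apply le_antisymm
  · refine (mk_le_mk_of_subset (t := {A | MeasurableSet A}) (fun A hA => (hb A).1 (h2 A hA))).trans ?_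
    obtain ⟨b, hbc, hbe⟩ := MeasurableSpace.CountablyGenerated.isCountablyGenerated (α := ℕ → Bool)
    rw [hbe]
    exact MeasurableSpace.cardinal_measurableSet_le_continuum
      (hbc.le_aleph0.trans aleph0_le_continuum)
  have hT : PropT {A | MeasurableSet A ∧ ∃ A' ∈ 𝓑, A =ᵐ[lam] A'} := by
    refine ⟨⟨⟨MeasurableSet.empty, ∅, h1.empty_mem, EventuallyEq.rfl⟩, ?_, ?_⟩,
      fun A hA => (hb A).2 hA.1,
      fun A hA => ⟨hA.isOpen.measurableSet, A, h3 A hA, EventuallyEq.rfl⟩, ?_⟩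
    · rintro A ⟨hA, A', hA', he⟩
      exact ⟨hA.compl, A'ᶜ, h1.compl_mem hA', he.compl⟩
    · rintro A B ⟨hA, A', hA', he⟩ ⟨hB, B', hB', he'⟩
      exact ⟨hA.union hB, A' ∪ B', h1.union_mem hA' hB', he.union he'⟩
    · intro F hF ε hε
      choose! f hf1 hf2 using fun A hA => (hF A hA).2
      obtain ⟨n, hn, h⟩ := h4 (F.image f) (by simpa using hf1) ε hε
      refine ⟨n, hn, fun A hA s => ?_⟩
      have h5 := h _ (Finset.mem_image_of_mem f hA) s
      have h6 := (hf2 A hA).inter (EventuallyEq.rfl (f := atom n s))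
      simp only [phi] at h5 ⊢
      rw [measureReal_congr h6, measureReal_congr (EventuallyEq.rfl.diff (hf2 A hA))]
      refine ⟨h5.1, fun m hm => ?_⟩
      rw [measureReal_congr (h6.inter EventuallyEq.rfl),
        measureReal_congr (s := A ∩ atom n s ∩ V m true) (h6.inter EventuallyEq.rfl)]
      exact h5.2 m hm
  have he := hmax _ hT (fun A hA => ⟨(hb A).1 (h2 A hA), A, hA, EventuallyEq.rfl⟩)
  have hs : ∀ x : ℕ → Bool, ({x} : Set (ℕ → Bool)) ∈ 𝓑 := by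
    intro x
    rw [← he]
    refine ⟨measurableSet_singleton x, ∅, h1.empty_mem, ae_eq_empty.2 ?_⟩
    haveI := Pool.Agent.Results.MP_54cd88_an.NotGrothendieck.prob
    have : Pool.Agent.Results.MP_54cd88_an.NotGrothendieck.lam.real {x} ≤ 0 := by
      refine ge_of_tendsto' (tendsto_pow_atTop_nhds_zero_of_lt_one (r := (1 / 2 : ℝ))
        (by norm_num) (by norm_num)) (fun N => ?_)
      rw [← Pool.Agent.Results.MP_54cd88_an.NotGrothendieck.lam_cyl N x]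
      exact measureReal_mono (by rintro _ rfl; exact fun _ _ => rfl)
    exact (measureReal_eq_zero_iff (μ := Pool.Agent.Results.MP_54cd88_an.NotGrothendieck.lam)
      (measure_ne_top _ _)).1 (le_antisymm this measureReal_nonneg)
  have := mk_le_of_injective (f := fun x : ℕ → Bool => (⟨{x}, hs x⟩ : 𝓑))
    (fun x y h => by simpa using h)
  simpa using this

theorem result : (∃ 𝓑, MaximalT 𝓑) ∧ propT = 𝔠 := by
  obtain ⟨𝓑, ⟨h1, h2⟩, -⟩ := Pool.Agent.Results.MP_54cd88_an.NotGrothendieck.result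
  have h : MaximalT 𝓑 := ⟨(iff_old _).2 h1, fun 𝓒 h => h2 𝓒 ((iff_old _).1 h)⟩
  refine ⟨⟨𝓑, h⟩, ?_⟩
  have : {c | ∃ 𝓑, MaximalT 𝓑 ∧ #𝓑 = c} = {𝔠} := by
    ext c
    exact ⟨fun ⟨_, h, e⟩ => e ▸ card_eq h, fun e => ⟨𝓑, h, e ▸ card_eq h⟩⟩
  rw [propT, this, csInf_singleton]

end Pool.Agent.Results.MP_898cae_lc.EqualsContinuum
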